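import Pool.Agent.Helper5.BAP.EB

/-! Part EA of the BAP2 project (MP_6f6997_an): the space `E₀` is closed, `hat` is bounded and
injective on it, and it maps to `XX D`. -/

open MeasureTheory
open scoped ENNReal NNReal

set_option maxSynthPendingDepth 3
set_option linter.unusedVariables false

namespace Pool.Agent.Helper5.BAP

open Pool.Agent.BAPp (sgn)
open Pool.Agent.BAPp.Khin (sgn_sq abs_sgn)
open Pool.Agent.Helper37.BP
open Pool.Agent.Helper31.BAP (m_pos)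
open Pool.Agent.Helper88.BAP (sum_sgn)

theorem cont_coord (r : ℝ) [Fact (1 ≤ ENNReal.ofReal r)] (γ : Ix) (h : Sg γ.1) :
    Continuous (fun F : Lam r => F γ h) := by
  have h1 : Continuous (fun F : Lam r => F γ) :=
    (lp.evalCLM ℝ (fun γ : Ix => PiLp 1 (fun _ : Sg γ.1 => ℝ)) (ENNReal.ofReal r) γ).continuous
  exact (PiLp.continuous_apply 1 (fun _ : Sg γ.1 => ℝ) h).comp h1

theorem cont_hat (t : Tree) (r : ℝ) [Fact (1 ≤ ENNReal.ofReal r)] (γ : Gam) :
    Continuous (fun F : Lam r => hat t r F γ) := by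
  unfold hat co
  refine continuous_finsetSum _ fun h _ => ?_
  exact continuous_const.mul (continuous_const.mul (cont_coord r (⟨γ.1, h⟩ : Ix) h))

theorem ip_eq_sum {Γ : Type} (ρ v f : Γ → ℝ) (hv : (Function.support v).Finite) :
    ip ρ v f = ∑ γ ∈ hv.toFinset, ρ γ * (v γ * f γ) := by
  unfold ip
  refine tsum_eq_sum fun γ hγ => ?_
  rw [Set.Finite.mem_toFinset, Function.mem_support, not_not] at hγ
  rw [hγ]; ring

theorem E0_closed (t : Tree) (r : ℝ) [Fact (1 ≤ ENNReal.ofReal r)] (D : Sys Gam Ix) :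
    IsClosed (E0 t r D : Set (Lam r)) := by
  have e : (E0 t r D : Set (Lam r)) =
      (⋂ (k : ℕ) (h0 : Sg k) (h : Sg k),
        {F : Lam r | F (⟨k, h0⟩ : Ix) h = if h ∈ t.A k h0 then F (⟨k, h⟩ : Ix) h else 0}) ∩
      ⋂ i : Ix, {F : Lam r | ip D.ρ (D.vh i) (hat t r F) = 0} := by
    ext F
    simp only [Set.mem_inter_iff, Set.mem_iInter, Set.mem_ofPred_eq]
    rfl
  rw [e]
  refine IsClosed.inter (isClosed_iInter fun k => isClosed_iInter fun h0 =>
    isClosed_iInter fun h => ?_) (isClosed_iInter fun i => ?_)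
  · refine isClosed_eq (cont_coord r (⟨k, h0⟩ : Ix) h) ?_
    split_ifs
    · exact cont_coord r (⟨k, h⟩ : Ix) h
    · exact continuous_const
  · refine isClosed_eq ?_ continuous_const
    have : (fun F : Lam r => ip D.ρ (D.vh i) (hat t r F)) = fun F =>
        ∑ γ ∈ (D.fin_supp i).toFinset, D.ρ γ * (D.vh i γ * hat t r F γ) :=
      funext fun F => ip_eq_sum _ _ _ (D.fin_supp i)
    rw [this]
    exact continuous_finsetSum _ fun γ _ =>
      continuous_const.mul (continuous_const.mul (cont_hat t r γ))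

theorem comp_norm (t : Tree) (r : ℝ) [Fact (1 ≤ ENNReal.ofReal r)] (D : Sys Gam Ix)
    (F : Lam r) (hF : F ∈ E0 t r D) (k : ℕ) (h0 : Sg k) :
    ‖F (⟨k, h0⟩ : Ix)‖ = ∑ h ∈ t.A k h0, |F (⟨k, h⟩ : Ix) h| := by
  rw [PiLp.norm_eq_of_L1]
  have e : ∀ h : Sg k, ‖F (⟨k, h0⟩ : Ix) h‖ = if h ∈ t.A k h0 then |F (⟨k, h⟩ : Ix) h| else 0 := by
    intro h
    rw [hF.1 k h0 h, Real.norm_eq_abs]
    split_ifs
    · rfl
    · exact abs_zero
  rw [Finset.sum_congr rfl (fun h _ => e h), Finset.sum_ite_mem, Finset.univ_inter]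

theorem level_le (t : Tree) (r : ℝ) (hr : 1 ≤ r) [Fact (1 ≤ ENNReal.ofReal r)] (D : Sys Gam Ix)
    (F : Lam r) (hF : F ∈ E0 t r D) (k : ℕ) (h0 : Sg k) :
    (t.m k : ℝ) ^ (1 / r) * ∑ h ∈ t.A k h0, |F (⟨k, h⟩ : Ix) h| ≤ ‖F‖ := by
  have hr0 : 0 < r := by linarith
  have hrr : (ENNReal.ofReal r).toReal = r := ENNReal.toReal_ofReal hr0.le
  set s : ℝ := ∑ h ∈ t.A k h0, |F (⟨k, h⟩ : Ix) h| with hs
  have hs0 : 0 ≤ s := Finset.sum_nonneg fun _ _ => abs_nonneg _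
  have h1 := lp.sum_rpow_le_norm_rpow (p := ENNReal.ofReal r) (by rw [hrr]; exact hr0) F
    ((t.A k h0).map ⟨fun h => (⟨k, h⟩ : Ix), fun a b hab => by simpa using hab⟩)
  rw [hrr, Finset.sum_map] at h1
  have e : ∀ h ∈ t.A k h0, ‖F (⟨k, h⟩ : Ix)‖ ^ r = s ^ r := by
    intro h hh
    rw [comp_norm t r D F hF k h, t.A_eq k h0 h hh]
  have h2 : ∑ h ∈ t.A k h0, ‖F (⟨k, h⟩ : Ix)‖ ^ r = t.m k * s ^ r := by
    rw [Finset.sum_congr rfl e, Finset.sum_const, t.A_card, nsmul_eq_mul]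
  have h3 : (t.m k : ℝ) * s ^ r ≤ ‖F‖ ^ r := by
    rw [← h2]; exact h1
  have h4 : ((t.m k : ℝ) * s ^ r) ^ (1 / r) ≤ (‖F‖ ^ r) ^ (1 / r) :=
    Real.rpow_le_rpow (by positivity) h3 (by positivity)
  rw [Real.mul_rpow (by positivity) (by positivity), ← Real.rpow_mul hs0,
    ← Real.rpow_mul (norm_nonneg _), mul_one_div_cancel hr0.ne', Real.rpow_one,
    Real.rpow_one] at h4
  exact h4

theorem hat_le (t : Tree) (r : ℝ) (hr : 1 ≤ r) [Fact (1 ≤ ENNReal.ofReal r)] (D : Sys Gam Ix)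
    (F : Lam r) (hF : F ∈ E0 t r D) (γ : Gam) : |hat t r F γ| ≤ ‖F‖ := by
  refine le_trans ?_ (level_le t r hr D F hF γ.1 γ.2.1)
  unfold hat co
  refine (Finset.abs_sum_le_sum_abs _ _).trans ?_
  rw [Finset.mul_sum]
  refine Finset.sum_le_sum fun h _ => ?_
  rw [abs_mul, abs_mul, abs_sgn, one_mul, abs_of_nonneg (by positivity)]

/-- the node coordinates are the Rademacher coefficients of `hat` -/
theorem co_eq (t : Tree) (r : ℝ) (F : Lam r) (k : ℕ) (h : Sg k) :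
    ∑ θ : Sg k → Bool, sgn (θ h) * hat t r F (⟨k, (h, θ)⟩ : Gam) =
      2 ^ (2 ^ k) * co t r F k h := by
  classical
  have e : ∀ θ : Sg k → Bool, sgn (θ h) * hat t r F (⟨k, (h, θ)⟩ : Gam) =
      ∑ h' ∈ t.A k h, (sgn (θ h) * sgn (θ h')) * co t r F k h' := by
    intro θ
    unfold hat
    rw [Finset.mul_sum]
    exact Finset.sum_congr rfl fun h' _ => (mul_assoc _ _ _).symm
  rw [Finset.sum_congr rfl (fun θ _ => e θ), Finset.sum_comm]
  have e2 : ∀ h' ∈ t.A k h, ∑ θ : Sg k → Bool, (sgn (θ h) * sgn (θ h')) * co t r F k h' =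
      if h = h' then 2 ^ (2 ^ k) * co t r F k h' else 0 := by
    intro h' _
    rw [← Finset.sum_mul, sum_sgn, Helper88.BAP.card_Sg]
    split_ifs <;> simp
  rw [Finset.sum_congr rfl e2, Finset.sum_ite_eq, if_pos (t.A_self k h)]

theorem hat_inj (t : Tree) (r : ℝ) (hr : 1 ≤ r) [Fact (1 ≤ ENNReal.ofReal r)] (D : Sys Gam Ix)
    (F : Lam r) (hF : F ∈ E0 t r D) (h : ∀ γ, hat t r F γ = 0) : F = 0 := by
  have h1 : ∀ (k : ℕ) (h' : Sg k), F (⟨k, h'⟩ : Ix) h' = 0 := by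
    intro k h'
    have h2 := co_eq t r F k h'
    simp only [h, mul_zero, Finset.sum_const_zero] at h2
    unfold co at h2
    have h3 : (2 : ℝ) ^ (2 ^ k) ≠ 0 := by positivity
    have h4 : (t.m k : ℝ) ^ (1 / r) ≠ 0 := (Real.rpow_pos_of_pos (m_pos t k h') _).ne'
    rcases mul_eq_zero.1 h2.symm with h5 | h5
    · exact absurd h5 h3
    · rcases mul_eq_zero.1 h5 with h6 | h6
      · exact absurd h6 h4
      · exact h6
  apply lp.ext
  funext γ
  obtain ⟨k, h0⟩ := γ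
  apply PiLp.ext
  intro h'
  rw [hF.1 k h0 h', h1]
  split_ifs <;> rfl

theorem Phi_exists (t : Tree) (r : ℝ) (hr : 1 ≤ r) [Fact (1 ≤ ENNReal.ofReal r)]
    (D : Sys Gam Ix) : ∃ Φ : E0 t r D →L[ℝ] XX D, ‖Φ‖ ≤ 1 ∧
    ∀ F γ, (Φ F : lp (fun _ : Gam ⊕ Om Ix => ℝ) ∞) (Sum.inl γ) = hat t r F γ := by
  have hmem : ∀ F : E0 t r D, Memℓp (Sum.elim (hat t r (F : Lam r)) (fun _ : Om Ix => (0 : ℝ))) ∞ := by
    intro F
    rw [memℓp_infty_iff]
    refine ⟨‖(F : Lam r)‖, ?_⟩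
    rintro _ ⟨γ | ω, rfl⟩
    · exact hat_le t r hr D F F.2 γ
    · simp
  let φ0 : E0 t r D → lp (fun _ : Gam ⊕ Om Ix => ℝ) ∞ := fun F => ⟨_, hmem F⟩
  have h0 : ∀ F, φ0 F ∈ XX D := by
    intro F S i
    have e1 : ip D.ρ (D.vh i) (hat t r (F : Lam r)) = 0 := F.2.2 i
    have e2 : av (fun _ : S → Bool => (0 : ℝ)) i = 0 := by simp [av]
    exact e1.trans e2.symm
  let φ : E0 t r D →ₗ[ℝ] XX D :=
    { toFun := fun F => ⟨φ0 F, h0 F⟩
      map_add' := by
        intro F G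
        apply Subtype.ext
        apply lp.ext
        funext x
        rcases x with γ | ω
        · exact hat_add t r F G γ
        · exact (add_zero (0 : ℝ)).symm
      map_smul' := by
        intro c F
        apply Subtype.ext
        apply lp.ext
        funext x
        rcases x with γ | ω
        · exact hat_smul t r c F γ
        · exact (mul_zero c).symm }
  have hb : ∀ F, ‖φ F‖ ≤ 1 * ‖F‖ := by
    intro F
    rw [one_mul]
    have : ‖φ0 F‖ ≤ ‖F‖ := by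
      refine lp.norm_le_of_forall_le (norm_nonneg _) ?_
      rintro (γ | ω)
      · exact hat_le t r hr D F F.2 γ
      · have : φ0 F (Sum.inr ω) = 0 := rfl
        rw [this, norm_zero]
        exact norm_nonneg _
    exact this
  exact ⟨φ.mkContinuous 1 hb, φ.mkContinuous_norm_le zero_le_one hb, fun F γ => rfl⟩

end Pool.Agent.Helper5.BAP
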