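import Pool.Agent.Helper37.BP.Defs2
import Pool.Agent.Helper31.BAP.SA

/-! Part EB of the BAP2 project (MP_6f6997_an): the elements `e_h, z_i, y_j` of `E₀`. -/

open MeasureTheory
open scoped ENNReal NNReal

set_option maxSynthPendingDepth 3
set_option linter.unusedVariables false

namespace Pool.Agent.Helper5.BAP

open Pool.Agent.BAPp (sgn)
open Pool.Agent.Helper37.BP
open Pool.Agent.Helper31.BAP (m_pos ip_vhat_zz)

theorem A_symm (t : Tree) {k : ℕ} {h h' : Sg k} : h' ∈ t.A k h ↔ h ∈ t.A k h' := by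
  constructor
  · intro hh; rw [t.A_eq k h h' hh]; exact t.A_self k h
  · intro hh; rw [t.A_eq k h' h hh]; exact t.A_self k h'

/-- the coordinate functionals of `Lam r` -/
noncomputable def cf (r : ℝ) (γ : Ix) (h : Sg γ.1) : Lam r →+ ℝ where
  toFun F := F γ h
  map_zero' := rfl
  map_add' _ _ := rfl

theorem cf_apply (r : ℝ) (γ : Ix) (h : Sg γ.1) (F : Lam r) : cf r γ h F = F γ h := rfl

theorem eL_same (t : Tree) (r : ℝ) (k : ℕ) (h h0 h' : Sg k) :
    (eL t r k h) (⟨k, h0⟩ : Ix) h' =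
      if h0 ∈ t.A k h ∧ h' = h then (t.m k : ℝ) ^ (-(1 / r)) else 0 := by
  classical
  rw [← cf_apply r (⟨k, h0⟩ : Ix) h']
  unfold eL
  rw [map_sum]
  have e : ∀ h1 : Sg k, cf r (⟨k, h0⟩ : Ix) h' (lp.single (ENNReal.ofReal r) (⟨k, h1⟩ : Ix)
      (WithLp.toLp 1 (Pi.single h ((t.m k : ℝ) ^ (-(1 / r)))))) =
      if h1 = h0 then (if h' = h then (t.m k : ℝ) ^ (-(1 / r)) else 0) else 0 := by
    intro h1
    rw [cf_apply]
    by_cases h10 : h1 = h0
    · subst h10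
      rw [lp.single_apply_self, if_pos rfl]
      exact Pi.single_apply _ _ _
    · rw [if_neg h10, lp.single_apply_ne]
      · rfl
      · intro hh
        apply h10
        simpa using hh.symm
  rw [Finset.sum_congr rfl (fun h1 _ => e h1), Finset.sum_ite_eq']
  by_cases h1 : h0 ∈ t.A k h <;> by_cases h2 : h' = h <;> simp [h1, h2]

theorem eL_ne (t : Tree) (r : ℝ) (k : ℕ) (h : Sg k) (γ : Ix) (hk : γ.1 ≠ k) (h' : Sg γ.1) :
    (eL t r k h) γ h' = 0 := by
  classical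
  rw [← cf_apply r γ h']
  unfold eL
  rw [map_sum]
  refine Finset.sum_eq_zero fun h1 _ => ?_
  rw [cf_apply, lp.single_apply_ne]
  · rfl
  · rintro rfl
    exact hk rfl

theorem co_eL_same (t : Tree) (r : ℝ) (k : ℕ) (h h' : Sg k) :
    co t r (eL t r k h) k h' = if h' = h then 1 else 0 := by
  unfold co
  rw [eL_same]
  by_cases hh : h' = h
  · subst hh
    rw [if_pos ⟨t.A_self k h', rfl⟩, if_pos rfl, ← Real.rpow_add (m_pos t k h'),
      add_neg_cancel, Real.rpow_zero]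
  · rw [if_neg (fun h1 => hh h1.2), if_neg hh, mul_zero]

theorem co_eL_ne (t : Tree) (r : ℝ) (k k' : ℕ) (hk : k' ≠ k) (h : Sg k) (h' : Sg k') :
    co t r (eL t r k h) k' h' = 0 := by
  unfold co
  rw [eL_ne t r k h (⟨k', h'⟩ : Ix) hk, mul_zero]

theorem hat_eL (t : Tree) (r : ℝ) (hr : 1 ≤ r) [Fact (1 ≤ ENNReal.ofReal r)] (k : ℕ) (h : Sg k) :
    hat t r (eL t r k h) = ev t k h := by
  funext γ
  obtain ⟨k', g⟩ := γ
  by_cases hk : k' = k
  · subst hk
    unfold ev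
    rw [lev_same]
    unfold hat
    simp only [co_eL_same, mul_ite, mul_one, mul_zero]
    rw [Finset.sum_ite_eq']
    by_cases h1 : h ∈ t.A k' g.1
    · rw [if_pos h1, if_pos (A_symm t |>.1 h1)]
    · rw [if_neg h1, if_neg (fun h2 => h1 (A_symm t |>.1 h2))]
  · unfold ev
    rw [lev_ne _ _ _ hk]
    unfold hat
    refine Finset.sum_eq_zero fun h' _ => ?_
    rw [co_eL_ne t r k k' hk, mul_zero]

theorem hat_zL (t : Tree) (r : ℝ) (hr : 1 ≤ r) [Fact (1 ≤ ENNReal.ofReal r)] (n : ℕ) (i : Sg n) :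
    hat t r (zL t r n i) = zz t n i := by
  funext γ
  unfold zL zz
  simp only [Fintype.sum_bool, hat_add, hat_smul, hat_eL t r hr]

theorem hat_sub (t : Tree) (r : ℝ) (F G : Lam r) (γ : Gam) :
    hat t r (F - G) γ = hat t r F γ - hat t r G γ := by
  have h1 := hat_add t r (F - G) G γ
  rw [sub_add_cancel] at h1
  rw [h1]; ring

theorem hat_yL (t : Tree) (r : ℝ) (hr : 1 ≤ r) [Fact (1 ≤ ENNReal.ofReal r)] (n : ℕ)
    (j : Sg (n + 2)) : hat t r (yL t r n j) = yy t n j := by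
  funext γ
  unfold yL yy
  rw [hat_sub, hat_smul, hat_zL t r hr, hat_zL t r hr]

/-- the subspace of the elements satisfying the first condition in the definition of `E0` -/
noncomputable def C1 (t : Tree) (r : ℝ) : Submodule ℝ (Lam r) where
  carrier := {F | ∀ (k : ℕ) (h0 h : Sg k),
    F ⟨k, h0⟩ h = if h ∈ t.A k h0 then F ⟨k, h⟩ h else 0}
  add_mem' := by
    rintro F G hF1 hG1 k h0 h
    have e1 : (F + G) ⟨k, h0⟩ h = F ⟨k, h0⟩ h + G ⟨k, h0⟩ h := rfl
    have e2 : (F + G) ⟨k, h⟩ h = F ⟨k, h⟩ h + G ⟨k, h⟩ h := rfl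
    rw [e1, e2, hF1, hG1]
    split_ifs <;> simp
  zero_mem' := by
    intro k h0 h
    have e1 : (0 : Lam r) ⟨k, h0⟩ h = 0 := rfl
    have e2 : (0 : Lam r) ⟨k, h⟩ h = 0 := rfl
    rw [e1, e2]; simp
  smul_mem' := by
    rintro c F hF1 k h0 h
    have e1 : (c • F) ⟨k, h0⟩ h = c * F ⟨k, h0⟩ h := rfl
    have e2 : (c • F) ⟨k, h⟩ h = c * F ⟨k, h⟩ h := rfl
    rw [e1, e2, hF1]
    split_ifs <;> simp

theorem eL_C1 (t : Tree) (r : ℝ) (k : ℕ) (h : Sg k) : eL t r k h ∈ C1 t r := by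
  intro k' h0 h'
  by_cases hk : k' = k
  · subst hk
    rw [eL_same, eL_same]
    by_cases hh : h' = h
    · subst hh
      simp only [and_true, t.A_self, if_true]
      by_cases h1 : h0 ∈ t.A k' h'
      · rw [if_pos h1, if_pos (A_symm t |>.1 h1)]
      · rw [if_neg h1, if_neg (fun h2 => h1 (A_symm t |>.1 h2))]
    · simp [hh]
  · rw [eL_ne t r k h (⟨k', h0⟩ : Ix) hk, eL_ne t r k h (⟨k', h'⟩ : Ix) hk]
    simp

theorem zL_C1 (t : Tree) (r : ℝ) (n : ℕ) (i : Sg n) : zL t r n i ∈ C1 t r := by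
  unfold zL
  refine Submodule.add_mem _ (Submodule.sum_mem _ fun c _ => Submodule.smul_mem _ _ (eL_C1 _ _ _ _))
    (Submodule.sum_mem _ fun c _ => Submodule.sum_mem _ fun c' _ => eL_C1 _ _ _ _)

theorem zL_mem (t : Tree) (s r : ℝ) (hs0 : 0 < s) (hs1 : s < 1) (hr : 1 ≤ r)
    [Fact (1 ≤ ENNReal.ofReal r)] (D : Sys Gam Ix) (hρ : D.ρ = rho s) (hv : D.vh = vhat t s)
    (n : ℕ) (i : Sg n) : zL t r n i ∈ E0 t r D := by
  refine ⟨zL_C1 t r n i, fun i' => ?_⟩
  rw [hat_zL t r hr, hρ, hv]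
  exact ip_vhat_zz t s hs0 hs1 i' n i

end Pool.Agent.Helper5.BAP
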